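import Pool.Agent.Helper95.KZ.Goals
import Pool.Agent.Helper71.NW.GR2

/-!
# KZ-BAL: finite connected sets invariant under a finite subgroup
-/

set_option autoImplicit false

namespace Pool.Agent.Helper71.KZ

open Pool.Agent.Helper52.Wq2 Pool.Agent.Helper61.NW Pool.Agent.Helper71.NW

universe u

/-- A finite connected set which contains `1` and `g`. -/
theorem fin_conn {Γ : Type u} [Group Γ] {S : Set Γ} (hS : IsGen S) (g : Γ) :
    ∃ B : Set Γ, B.Finite ∧ Conn (cay S) B ∧ (1 : Γ) ∈ B ∧ g ∈ B := by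
  have hg : g ∈ Subgroup.closure S := by rw [hS.1]; exact Subgroup.mem_top g
  have step : ∀ (y t : Γ), t ∈ S →
      (∃ B : Set Γ, B.Finite ∧ Conn (cay S) B ∧ (1 : Γ) ∈ B ∧ y ∈ B) →
      ∃ B : Set Γ, B.Finite ∧ Conn (cay S) B ∧ (1 : Γ) ∈ B ∧ y * t ∈ B := by
    rintro y t ht ⟨B, h1, h2, h3, h4⟩
    exact ⟨B ∪ {y * t}, h1.union (Set.finite_singleton _),
      h2.union (conn_singleton _ _) h4 rfl (cay_adj_mul hS y ht), Or.inl h3, Or.inr rfl⟩
  induction hg using Subgroup.closure_induction_right with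
  | one => exact ⟨{1}, Set.finite_singleton _, conn_singleton _ _, rfl, rfl⟩
  | mul_right y _ t ht ih => exact step y t ht ih
  | mul_inv_cancel y _ t ht ih => exact step y t⁻¹ (hS.2.1 t ht) ih

theorem bal : Pool.Agent.Helper95.KZ.BalStmt.{u} := by
  intro Γ _ S K R hS hK hR
  classical
  choose Bf hf hc h1 hgB using fun g : Γ => fin_conn hS g
  have hF : (R ∪ (K : Set Γ)).Finite := hR.union hK
  have hFf : Finite (R ∪ (K : Set Γ) : Set Γ) := hF.to_subtype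
  have hKf : Finite K := hK.to_subtype
  let B₀ : Set Γ := {1} ∪ ⋃ g : (R ∪ (K : Set Γ) : Set Γ), Bf g
  have one : (1 : Γ) ∈ B₀ := Or.inl rfl
  have mem0 : ∀ g ∈ (R ∪ (K : Set Γ) : Set Γ), g ∈ B₀ := fun g hg =>
    Or.inr (Set.mem_iUnion.2 ⟨⟨g, hg⟩, hgB g⟩)
  have fin0 : B₀.Finite := (Set.finite_singleton 1).union (Set.finite_iUnion fun g => hf g)
  have c0 : Conn (cay S) B₀ := conn_hub (conn_singleton _ 1)
    (fun g : (R ∪ (K : Set Γ) : Set Γ) => Bf g) (fun g => hc g) (fun g => ⟨1, h1 g, rfl⟩)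
  refine ⟨B₀ ∪ ⋃ k : K, (fun x => (k : Γ) * x) '' B₀, ?_, ?_, ?_, ?_⟩
  · exact fin0.union (Set.finite_iUnion fun k => fin0.image _)
  · refine conn_hub c0 (fun k : K => (fun x => (k : Γ) * x) '' B₀) ?_ ?_
    · intro k
      exact c0.image _ fun a _ b _ hab => Or.inr (cay_mul hS _ hab)
    · intro k
      exact ⟨k, ⟨1, one, mul_one _⟩, mem0 _ (Or.inr k.2)⟩
  · intro r hr
    exact Or.inl (mem0 r (Or.inl hr))
  · rintro k hk x (hx | hx)
    · exact Or.inr (Set.mem_iUnion.2 ⟨⟨k, hk⟩, x, hx, rfl⟩)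
    · obtain ⟨k', y, hy, rfl⟩ := Set.mem_iUnion.1 hx
      exact Or.inr (Set.mem_iUnion.2 ⟨⟨k * k', K.mul_mem hk k'.2⟩, y, hy, by
        show k * (k' : Γ) * y = k * ((k' : Γ) * y)
        rw [mul_assoc]⟩)

end Pool.Agent.Helper71.KZ
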