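import Pool.Agent.Helper95.KZ.Goals
import Pool.Agent.Helper71.NW.GR2
import Pool.Agent.Helper71.NW.NUM

/-!
# KZ-JMP: a line disjoint from its translate does not separate
-/

set_option autoImplicit false

namespace Pool.Agent.Helper71.KZ

open Pool.Agent.Helper52.Wq2 Pool.Agent.Helper61.NW Pool.Agent.Helper71.NW Pool.Agent.Helper95.KZ

universe u

theorem conn_pt {V : Type*} {G : SimpleGraph V} {A B : Set V} (hA : Conn G A) (hB : Conn G B)
    {p : V} (h1 : p ∈ A) (h2 : p ∈ B) : Conn G (A ∪ B) := by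
  have := conn_hub hA (fun _ : Unit => B) (fun _ => hB) (fun _ => ⟨p, h2, h1⟩)
  rwa [Set.iUnion_const] at this

theorem conn_fin {V : Type*} {G : SimpleGraph V} {A : Set V} (hA : Conn G A) {p q : V}
    (hp : p ∈ A) (hq : q ∈ A) : ∃ W : Set V, W ⊆ A ∧ W.Finite ∧ Conn G W ∧ p ∈ W ∧ q ∈ W := by
  have h := hA.2 {x | x ∈ A ∧ ∃ W : Set V, W ⊆ A ∧ W.Finite ∧ Conn G W ∧ p ∈ W ∧ x ∈ W}
    (fun x hx => hx.1)
    ⟨p, hp, {p}, by simpa using hp, Set.finite_singleton _, conn_singleton _ _, rfl, rfl⟩ (by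
    rintro x ⟨hx, W, hWV, hf, hc, hpW, hxW⟩ y hy hxy
    exact ⟨hy, W ∪ {y}, Set.union_subset hWV (by simpa using hy), hf.union (Set.finite_singleton _),
      hc.union (conn_singleton _ _) hxW rfl hxy, Or.inl hpW, Or.inr rfl⟩)
  exact (h hq).2

/-- The points which are joined to `R` outside of `l`. -/
def UU {Γ : Type u} [Group Γ] (S : Set Γ) (l R : Set Γ) : Set Γ :=
  {x | ∃ W : Set Γ, Conn (cay S) W ∧ Disjoint W l ∧ x ∈ W ∧ (W ∩ R).Nonempty}

theorem key {Γ : Type u} [Group Γ] {S : Set Γ} (hS : IsGen S) {k : Γ} {o : ℕ} (ho : 0 < o)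
    (hk : k ^ o = 1) {l : Set Γ} (hl : Conn (cay S) l) (hkl : ∀ x ∈ l, k * x ∉ l) {R : Set Γ}
    (hR : ∀ x ∈ R, k * x ∈ R) (hRl : Disjoint R l) (hne : R.Nonempty) :
    ∃ x ∈ l, k * x ∈ UU S l R := by
  by_contra hcon
  push Not at hcon
  have hRn : ∀ n : ℕ, ∀ x ∈ R, k ^ n * x ∈ R := by
    intro n
    induction n with
    | zero => intro x hx; rwa [pow_zero, one_mul]
    | succ n ih => intro x hx; rw [pow_succ', mul_assoc]; exact hR _ (ih x hx)
  have hinv : k⁻¹ = k ^ (o - 1) := by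
    have : k * k ^ (o - 1) = 1 := by rw [← pow_succ', Nat.sub_add_cancel ho, hk]
    exact inv_eq_of_mul_eq_one_right this
  have hRi : ∀ x ∈ R, k⁻¹ * x ∈ R := fun x hx => by rw [hinv]; exact hRn _ x hx
  have hsub : ∀ W : Set Γ, Conn (cay S) W → Disjoint W l → (W ∩ R).Nonempty → W ⊆ UU S l R :=
    fun W h1 h2 h3 x hx => ⟨W, h1, h2, hx, h3⟩
  have hU : ∀ x ∈ UU S l R, k⁻¹ * x ∈ UU S l R := by
    rintro x ⟨W, h1, h2, h3, y, hy1, hy2⟩
    refine ⟨(fun z => k⁻¹ * z) '' W, h1.image _ fun a _ b _ hab => Or.inr (cay_mul hS _ hab), ?_,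
      ⟨x, h3, rfl⟩, k⁻¹ * y, ⟨y, hy1, rfl⟩, hRi y hy2⟩
    rw [Set.disjoint_left]
    rintro _ ⟨w, hw, rfl⟩ hwl
    refine hcon _ hwl ?_
    show k * (k⁻¹ * w) ∈ _
    rw [mul_inv_cancel_left]
    exact hsub W h1 h2 ⟨y, hy1, hy2⟩ hw
  have hUn : ∀ n : ℕ, ∀ x ∈ UU S l R, (k⁻¹) ^ n * x ∈ UU S l R := by
    intro n
    induction n with
    | zero => intro x hx; rwa [pow_zero, one_mul]
    | succ n ih => intro x hx; rw [pow_succ', mul_assoc]; exact hU _ (ih x hx)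
  have hUk : ∀ x ∈ UU S l R, k * x ∈ UU S l R := by
    intro x hx
    have h1 : k = (k⁻¹) ^ (o - 1) := by
      rw [inv_pow, ← hinv, inv_inv]
    rw [h1]
    exact hUn _ x hx
  obtain ⟨r, hr⟩ := hne
  have hrU : r ∈ UU S l R := ⟨{r}, conn_singleton _ _, by
    rw [Set.disjoint_singleton_left]
    exact fun h => Set.disjoint_left.1 hRl hr h, rfl, r, rfl, hr⟩
  have hall := (conn_cay hS).2 (UU S l R) (Set.subset_univ _) ⟨r, hrU⟩ (by
    intro x hx y _ hxy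
    by_cases hyl : y ∈ l
    · have h1 : k⁻¹ * y ∉ l := fun h => hkl _ h (by rwa [mul_inv_cancel_left])
      obtain ⟨W, w1, w2, w3, w4⟩ := hU x hx
      have h3 : k⁻¹ * y ∈ UU S l R := by
        refine ⟨W ∪ {k⁻¹ * y}, w1.union (conn_singleton _ _) w3 rfl (cay_mul hS _ hxy), ?_,
          Or.inr rfl, w4.mono (Set.inter_subset_inter_left _ Set.subset_union_left)⟩
        rw [Set.disjoint_union_left]
        exact ⟨w2, by rwa [Set.disjoint_singleton_left]⟩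
      have h4 := hUk _ h3
      rwa [mul_inv_cancel_left] at h4
    · obtain ⟨W, w1, w2, w3, w4⟩ := hx
      refine ⟨W ∪ {y}, w1.union (conn_singleton _ _) w3 rfl hxy, ?_,
          Or.inr rfl, w4.mono (Set.inter_subset_inter_left _ Set.subset_union_left)⟩
      rw [Set.disjoint_union_left]
      exact ⟨w2, by rwa [Set.disjoint_singleton_left]⟩)
  obtain ⟨z, hz⟩ := hl.1
  obtain ⟨W, _, w2, w3, _⟩ := hall (Set.mem_univ z)
  exact Set.disjoint_left.1 w2 w3 hz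

theorem jmp : JmpStmt.{u} := by
  intro Γ _ S a b k B hP o ho hk l hl hkl L hL hh c
  have hS := hP.gen
  have hcomm : ∀ i j : ℤ, k * (a ^ i * b ^ j) = a ^ i * b ^ j * k := by
    intro i j
    have h1 : Commute k (a ^ i) := Commute.zpow_right (show Commute k a from hP.ak.symm) i
    have h2 : Commute k (b ^ j) := Commute.zpow_right (show Commute k b from hP.bk.symm) j
    exact (h1.mul_right h2).eq
  have hslab : ∀ P : ℤ → Prop, ∀ x ∈ Sl a b B P, k * x ∈ Sl a b B P := by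
    rintro P _ ⟨i, j, hj, x, hx, rfl⟩
    exact ⟨i, j, hj, k * x, hP.kB x hx, by rw [← mul_assoc, hcomm, mul_assoc]⟩
  have hdis : ∀ P : ℤ → Prop, (∀ j, P j → L < |j|) → Disjoint (Sl a b B P) l := by
    intro P hPj
    rw [Set.disjoint_left]
    rintro _ ⟨i, j, hj, x, hx, rfl⟩ hxl
    have h1 := hh i j x hx hxl
    have h2 := hPj j hj
    omega
  have hnon : ∀ (P : ℤ → Prop) (j : ℤ), P j → (Sl a b B P).Nonempty :=
    fun P j hj => ⟨a ^ (0 : ℤ) * b ^ j * 1, 0, j, hj, 1, hP.one, rfl⟩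
  let c' : ℤ := max c (L + 1)
  have hc1 : c ≤ c' := le_max_left _ _
  have hc2 : L + 1 ≤ c' := le_max_right _ _
  obtain ⟨x1, hx1, W1, w11, w12, w13, p, hp1, hp2⟩ := key hS ho hk hl hkl
    (hslab (fun j => c' ≤ j)) (hdis _ (fun j (hj : c' ≤ j) => by
      have := le_abs_self j
      omega)) (hnon _ c' le_rfl)
  obtain ⟨x2, hx2, W2, w21, w22, w23, q, hq1, hq2⟩ := key hS ho hk hl hkl
    (hslab (fun j => j ≤ -c')) (hdis _ (fun j (hj : j ≤ -c') => by
      have := neg_le_abs j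
      omega)) (hnon _ (-c') le_rfl)
  have ckl : Conn (cay S) ((fun z => k * z) '' l) :=
    hl.image _ fun a _ b _ hab => Or.inr (cay_mul hS _ hab)
  have c1 : Conn (cay S) (W1 ∪ (fun z => k * z) '' l) :=
    conn_pt w11 ckl w13 ⟨x1, hx1, rfl⟩
  have c2 : Conn (cay S) ((W1 ∪ (fun z => k * z) '' l) ∪ W2) :=
    conn_pt c1 w21 (p := k * x2) (Or.inr ⟨x2, hx2, rfl⟩) w23
  obtain ⟨W, hW, hf, hc, hpW, hqW⟩ := conn_fin c2 (p := p) (q := q) (Or.inl (Or.inl hp1))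
    (Or.inr hq1)
  refine ⟨W, hf, hc, ?_, ⟨p, hpW, ?_⟩, ⟨q, hqW, ?_⟩⟩
  · refine Set.disjoint_of_subset_left hW ?_
    rw [Set.disjoint_union_left, Set.disjoint_union_left]
    refine ⟨⟨w12, ?_⟩, w22⟩
    rw [Set.disjoint_left]
    rintro _ ⟨x, hx, rfl⟩ h
    exact hkl x hx h
  · obtain ⟨i, j, hj, x, hx, e⟩ := hp2
    exact ⟨i, j, hc1.trans hj, x, hx, e⟩
  · obtain ⟨i, j, hj, x, hx, e⟩ := hq2
    refine ⟨i, j, ?_, x, hx, e⟩
    simp only at hj ⊢
    omega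

end Pool.Agent.Helper71.KZ
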